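import Mathlib
import Pool.Agent.Q148.TChar.Basic

/-!
# MP_24a371: being T-characterized is not transitive

`X = Z/4 × (⊕_ℕ Z/2)` with the discrete topology, `X₂ = X`, `X₁ = {x | 2 x = 0}` and
`X₀ = 0 × (⊕_ℕ Z/2)`.
-/

open Filter Topology
open Pool.Agent.Q148.TChar

namespace Pool.Agent.Results.MP_24a371_gt.NotTransitive

/-- The group `Z/4 × (⊕_ℕ Z/2)`. -/
def X : Type := ZMod 4 × (ℕ →₀ ZMod 2)

noncomputable instance : AddCommGroup X :=
  inferInstanceAs (AddCommGroup (ZMod 4 × (ℕ →₀ ZMod 2)))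

/-- The discrete topology on `X`. -/
instance : TopologicalSpace X := ⊥

instance : DiscreteTopology X := ⟨rfl⟩

/-- Constructor. -/
def mk (a : ZMod 4) (f : ℕ →₀ ZMod 2) : X := (a, f)

theorem mk_add (a b : ZMod 4) (f g : ℕ →₀ ZMod 2) : mk a f + mk b g = mk (a + b) (f + g) := rfl

theorem mk_zero : mk 0 0 = 0 := rfl

theorem mk_neg (a : ZMod 4) (f : ℕ →₀ ZMod 2) : -mk a f = mk (-a) (-f) := rfl

theorem two_fin (f : ℕ →₀ ZMod 2) : f + f = 0 := by
  ext n
  rw [Finsupp.add_apply]
  have : ∀ a : ZMod 2, a + a = 0 := by decide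
  rw [this]
  rfl

/-- `X₀ = 0 × (⊕_ℕ Z/2)`. -/
def X0 : AddSubgroup X where
  carrier := {x | x.1 = 0}
  zero_mem' := rfl
  add_mem' := by
    intro x y hx hy
    show x.1 + y.1 = 0
    rw [show x.1 = 0 from hx, show y.1 = 0 from hy, add_zero]
  neg_mem' := by
    intro x hx
    show -x.1 = 0
    rw [show x.1 = 0 from hx, neg_zero]

/-- `X₁ = {x | 2 x = 0}`. -/
def X1 : AddSubgroup X where
  carrier := {x | x.1 + x.1 = 0}
  zero_mem' := by
    show (0 : ZMod 4) + 0 = 0
    decide
  add_mem' := by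
    intro x y hx hy
    show (x.1 + y.1) + (x.1 + y.1) = 0
    rw [add_add_add_comm, show x.1 + x.1 = 0 from hx, show y.1 + y.1 = 0 from hy, add_zero]
  neg_mem' := by
    intro x hx
    show -x.1 + -x.1 = 0
    rw [← neg_add, show x.1 + x.1 = 0 from hx, neg_zero]

/-- `X₂ = X`. -/
noncomputable def X2 : AddSubgroup X := ⊤

theorem mem_X0 (x : X) : x ∈ X0 ↔ x.1 = 0 := Iff.rfl

theorem mem_X1 (x : X) : x ∈ X1 ↔ x.1 + x.1 = 0 := Iff.rfl

theorem X01 : X0 ≤ X1 := by
  intro x hx
  rw [mem_X1, (mem_X0 x).1 hx, add_zero]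

theorem X12 : X1 ≤ X2 := fun _ _ => trivial

/-- Elements of `X₂`. -/
def mk2 (a : ZMod 4) (f : ℕ →₀ ZMod 2) : X2 := ⟨mk a f, trivial⟩

theorem mk2_add (a b : ZMod 4) (f g : ℕ →₀ ZMod 2) :
    mk2 a f + mk2 b g = mk2 (a + b) (f + g) := rfl

theorem mk2_surj (x : X2) : ∃ a f, x = mk2 a f := ⟨x.1.1, x.1.2, rfl⟩

theorem mk2_add_self (a : ZMod 4) (f : ℕ →₀ ZMod 2) : (2 : ℕ) • mk2 a f = mk2 (a + a) 0 := by
  rw [two_nsmul, mk2_add, two_fin]

/-! ### `X₀` is not T-characterized in `X₂` -/

/-- The element `(2, 0)`. -/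
def d2 : X2 := mk2 2 0

theorem two_char (χ : X2 →ₜ+ UnitAddCircle) (a : ZMod 4) (f : ℕ →₀ ZMod 2) :
    ((2 : ℕ) • χ) (mk2 a f) = χ (mk2 (a + a) 0) := by
  rw [nsmul_apply', ← map_nsmul, mk2_add_self]

theorem char_d2 (χ : X2 →ₜ+ UnitAddCircle) (h : χ d2 ≠ 0) : χ d2 = half := by
  apply eq_half _ h
  rw [← map_nsmul, d2, mk2_add_self]
  exact map_zero χ

theorem zmod4 (a : ZMod 4) : a + a = 0 ∨ a + a = 2 := by
  revert a; decide

theorem not_t : ¬ TCharacterized (X0.addSubgroupOf X2) := by
  apply not_tCharacterized d2 2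
  · intro χ χ' h h'
    ext x
    obtain ⟨a, f, rfl⟩ := mk2_surj x
    rw [two_char, two_char]
    rcases zmod4 a with h0 | h0
    · rw [h0, show mk2 0 0 = 0 from rfl, map_zero, map_zero]
    · rw [h0]
      show χ d2 = χ' d2
      rw [char_d2 χ h, char_d2 χ' h']
  · intro χ h hc
    apply h
    have : ((2 : ℕ) • χ) (mk2 1 0) = 0 := by rw [hc]; rfl
    rw [two_char] at this
    exact this
  · rw [AddSubgroup.mem_addSubgroupOf]
    show (2 : ZMod 4) ≠ 0
    decide

/-! ### `X₁` is T-characterized in `X₂` -/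

theorem toAddCircle_one : ZMod.toAddCircle (1 : ZMod 2) = half := by
  apply eq_half
  · rw [← map_nsmul]
    have : (2 : ℕ) • (1 : ZMod 2) = 0 := by decide
    rw [this, map_zero]
  · intro h
    have h3 : (1 : ZMod 2) = 0 := ZMod.toAddCircle_injective 2 (by rw [h, map_zero])
    revert h3
    decide

theorem toAddCircle_two : ZMod.toAddCircle (2 : ZMod 4) = half := by
  apply eq_half
  · rw [← map_nsmul]
    have : (2 : ℕ) • (2 : ZMod 4) = 0 := by decide
    rw [this, map_zero]
  · intro h
    have h3 : (2 : ZMod 4) = 0 := ZMod.toAddCircle_injective 4 (by rw [h, map_zero])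
    revert h3
    decide

theorem eventually_zero (f : ℕ →₀ ZMod 2) : ∀ᶠ n in atTop, f n = 0 := by
  have hfin : (f.support : Set ℕ).Finite := Finset.finite_toSet _
  have := hfin.compl_mem_cofinite
  rw [Nat.cofinite_eq_atTop] at this
  filter_upwards [this] with n hn
  by_contra h
  exact hn (by simpa using h)

/-- The characters `(a, f) ↦ a / 2 + f n / 2` of `X₂`. -/
noncomputable def v (n : ℕ) : X2 →ₜ+ UnitAddCircle where
  toFun x := ZMod.toAddCircle ((x : X).1 + (x : X).1) + ZMod.toAddCircle ((x : X).2 n)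
  map_zero' := by
    show ZMod.toAddCircle ((0 : ZMod 4) + 0) + ZMod.toAddCircle (0 : ZMod 2) = 0
    simp
  map_add' x y := by
    show ZMod.toAddCircle (((x : X).1 + (y : X).1) + ((x : X).1 + (y : X).1)) +
      ZMod.toAddCircle ((x : X).2 n + (y : X).2 n) = _
    simp only [map_add]
    abel
  continuous_toFun := continuous_of_discreteTopology

theorem v_mk2 (n : ℕ) (a : ZMod 4) (f : ℕ →₀ ZMod 2) :
    v n (mk2 a f) = ZMod.toAddCircle (a + a) + ZMod.toAddCircle (f n) := rfl

/-- `(0, single k 1)`. -/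
noncomputable def e2 (k : ℕ) : X2 := mk2 0 (Finsupp.single k 1)

theorem gen2 : AddSubgroup.closure (insert (mk2 1 0) (Set.range e2)) = ⊤ := by
  rw [eq_top_iff]
  rintro x -
  obtain ⟨a, f, rfl⟩ := mk2_surj x
  have h1 : mk2 a f = mk2 a 0 + mk2 0 f := by rw [mk2_add, add_zero, zero_add]
  rw [h1]
  apply AddSubgroup.add_mem
  · have h2 : mk2 a 0 = a.val • mk2 1 0 := by
      have : ∀ k : ℕ, k • mk2 1 0 = mk2 (k : ZMod 4) 0 := by
        intro k
        induction k with
        | zero => simp; rfl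
        | succ k ih => rw [succ_nsmul, ih, mk2_add]; simp
      rw [this, ZMod.natCast_val, ZMod.cast_id]
    rw [h2]
    exact AddSubgroup.nsmul_mem _ (AddSubgroup.subset_closure (Set.mem_insert _ _)) _
  · induction f using Finsupp.induction_linear with
    | zero => exact AddSubgroup.zero_mem _
    | add f g hf hg =>
      have : mk2 0 (f + g) = mk2 0 f + mk2 0 g := by rw [mk2_add, add_zero]
      rw [this]
      refine AddSubgroup.add_mem _ (hf ?_) (hg ?_)
      · rw [mk2_add, add_zero, zero_add]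
      · rw [mk2_add, add_zero, zero_add]
    | single k b =>
      have : ∀ b : ZMod 2, b = 0 ∨ b = 1 := by decide
      rcases this b with rfl | rfl
      · rw [Finsupp.single_zero]
        exact AddSubgroup.zero_mem _
      · exact AddSubgroup.subset_closure (Set.mem_insert_of_mem _ ⟨k, rfl⟩)

theorem t12 : TCharacterized (X1.addSubgroupOf X2) := by
  refine ⟨v, ?_, ?_⟩
  · apply isTSeq_of_gen (mk2 1 0) e2 gen2 half
    · intro n
      rw [v_mk2]
      show ZMod.toAddCircle (1 + 1 : ZMod 4) + ZMod.toAddCircle (0 : ZMod 2) = half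
      rw [show (1 + 1 : ZMod 4) = 2 from rfl, toAddCircle_two, map_zero, add_zero]
    · intro n k
      rw [e2, v_mk2, add_zero, map_zero, zero_add]
      by_cases h : n = k
      · subst h
        rw [if_pos rfl, Finsupp.single_eq_same, toAddCircle_one]
      · rw [if_neg h, Finsupp.single_apply, if_neg (fun h' => h h'.symm), map_zero]
  · intro x
    obtain ⟨a, f, rfl⟩ := mk2_surj x
    have hev : ∀ᶠ n in atTop, ZMod.toAddCircle (a + a) = v n (mk2 a f) := by
      filter_upwards [eventually_zero f] with n hn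
      rw [v_mk2, hn, map_zero, add_zero]
    rw [AddSubgroup.mem_addSubgroupOf]
    constructor
    · intro h
      have h' : a + a = 0 := h
      apply tendsto_const_nhds.congr'
      rw [h', map_zero] at hev
      exact hev
    · intro h
      have h2 : Tendsto (fun _ : ℕ => ZMod.toAddCircle (a + a)) atTop (𝓝 0) :=
        h.congr' (hev.mono fun _ hn => hn.symm)
      have h3 : ZMod.toAddCircle (a + a) = 0 := tendsto_nhds_unique tendsto_const_nhds h2
      have h4 : a + a = 0 := ZMod.toAddCircle_injective 4 (by rw [h3, map_zero])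
      exact h4

/-! ### `X₀` is T-characterized in `X₁` -/

/-- The characters `(a, f) ↦ a / 4 + f n / 2` of `X₁`. -/
noncomputable def u (n : ℕ) : X1 →ₜ+ UnitAddCircle where
  toFun x := ZMod.toAddCircle ((x : X).1) + ZMod.toAddCircle ((x : X).2 n)
  map_zero' := by
    show ZMod.toAddCircle ((0 : ZMod 4)) + ZMod.toAddCircle (0 : ZMod 2) = 0
    simp
  map_add' x y := by
    show ZMod.toAddCircle (((x : X).1 + (y : X).1)) +
      ZMod.toAddCircle ((x : X).2 n + (y : X).2 n) = _
    simp only [map_add]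
    abel
  continuous_toFun := continuous_of_discreteTopology

/-- Elements of `X₁`. -/
def mk1 (a : ZMod 4) (f : ℕ →₀ ZMod 2) (h : a + a = 0) : X1 := ⟨mk a f, h⟩

theorem u_mk1 (n : ℕ) (a : ZMod 4) (f : ℕ →₀ ZMod 2) (h : a + a = 0) :
    u n (mk1 a f h) = ZMod.toAddCircle a + ZMod.toAddCircle (f n) := rfl

/-- `(2, 0)` in `X₁`. -/
def d1 : X1 := mk1 2 0 (by decide)

/-- `(0, single k 1)`. -/
noncomputable def e1 (k : ℕ) : X1 := mk1 0 (Finsupp.single k 1) (by decide)

theorem gen1 : AddSubgroup.closure (insert d1 (Set.range e1)) = ⊤ := by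
  rw [eq_top_iff]
  rintro ⟨⟨a, f⟩, hx⟩ -
  have hx' : a + a = 0 := hx
  have h1 : (⟨(a, f), hx⟩ : X1) = mk1 a 0 hx' + mk1 0 f (by decide) := by
    apply Subtype.ext
    show mk a f = mk a 0 + mk 0 f
    rw [mk_add, add_zero, zero_add]
  rw [h1]
  apply AddSubgroup.add_mem
  · have h2 : ∀ a : ZMod 4, a + a = 0 → a = 0 ∨ a = 2 := by decide
    rcases h2 a hx' with rfl | rfl
    · exact AddSubgroup.zero_mem _
    · exact AddSubgroup.subset_closure (Set.mem_insert _ _)
  · clear h1 hx
    induction f using Finsupp.induction_linear with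
    | zero => exact AddSubgroup.zero_mem _
    | add f g hf hg =>
      have : mk1 0 (f + g) (by decide) = mk1 0 f (by decide) + mk1 0 g (by decide) := by
        apply Subtype.ext
        show mk 0 (f + g) = mk 0 f + mk 0 g
        rw [mk_add, add_zero]
      rw [this]
      exact AddSubgroup.add_mem _ hf hg
    | single k b =>
      have : ∀ b : ZMod 2, b = 0 ∨ b = 1 := by decide
      rcases this b with rfl | rfl
      · have : mk1 0 (Finsupp.single k 0) (by decide) = 0 := by
          apply Subtype.ext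
          show mk 0 (Finsupp.single k 0) = 0
          rw [Finsupp.single_zero, mk_zero]
        rw [this]
        exact AddSubgroup.zero_mem _
      · exact AddSubgroup.subset_closure (Set.mem_insert_of_mem _ ⟨k, rfl⟩)

theorem t01 : TCharacterized (X0.addSubgroupOf X1) := by
  refine ⟨u, ?_, ?_⟩
  · apply isTSeq_of_gen d1 e1 gen1 half
    · intro n
      rw [d1, u_mk1]
      show ZMod.toAddCircle (2 : ZMod 4) + ZMod.toAddCircle (0 : ZMod 2) = half
      rw [toAddCircle_two, map_zero, add_zero]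
    · intro n k
      rw [e1, u_mk1, map_zero, zero_add]
      by_cases h : n = k
      · subst h
        rw [if_pos rfl, Finsupp.single_eq_same, toAddCircle_one]
      · rw [if_neg h, Finsupp.single_apply, if_neg (fun h' => h h'.symm), map_zero]
  · rintro ⟨⟨a, f⟩, hx⟩
    have hx' : a + a = 0 := hx
    have hev : ∀ᶠ n in atTop, ZMod.toAddCircle a = u n ⟨(a, f), hx⟩ := by
      filter_upwards [eventually_zero f] with n hn
      show _ = u n (mk1 a f hx')
      rw [u_mk1, hn, map_zero, add_zero]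
    rw [AddSubgroup.mem_addSubgroupOf]
    constructor
    · intro h
      have h' : a = 0 := h
      subst h'
      apply tendsto_const_nhds.congr'
      rw [map_zero] at hev
      exact hev
    · intro h
      have h2 : Tendsto (fun _ : ℕ => ZMod.toAddCircle a) atTop (𝓝 0) :=
        h.congr' (hev.mono fun _ hn => hn.symm)
      have h3 : ZMod.toAddCircle a = 0 := tendsto_nhds_unique tendsto_const_nhds h2
      exact ZMod.toAddCircle_injective 4 (by rw [h3, map_zero])

/-! ### `X₁` is dually embedded in `X₂` -/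

/-- Restriction of a character of `X₁` to `X₀`, as a homomorphism on `⊕ Z/2`. -/
noncomputable def χf (χ : X1 →ₜ+ UnitAddCircle) : (ℕ →₀ ZMod 2) →+ UnitAddCircle where
  toFun f := χ (mk1 0 f (by decide))
  map_zero' := map_zero χ
  map_add' f g := by
    rw [← map_add]
    congr 1

/-- The homomorphism `(a, f) ↦ toAddCircle a + χ (0, f)`. -/
noncomputable def ext1 (χ : X1 →ₜ+ UnitAddCircle) : X2 →ₜ+ UnitAddCircle where
  toFun x := ZMod.toAddCircle ((x : X).1) + χf χ ((x : X).2)
  map_zero' := by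
    show ZMod.toAddCircle ((0 : ZMod 4)) + χf χ 0 = 0
    simp
  map_add' x y := by
    show ZMod.toAddCircle (((x : X).1 + (y : X).1)) + χf χ ((x : X).2 + (y : X).2) = _
    simp only [map_add]
    abel
  continuous_toFun := continuous_of_discreteTopology

/-- The homomorphism `(a, f) ↦ χ (0, f)`. -/
noncomputable def ext0 (χ : X1 →ₜ+ UnitAddCircle) : X2 →ₜ+ UnitAddCircle where
  toFun x := χf χ ((x : X).2)
  map_zero' := by
    show χf χ 0 = 0
    simp
  map_add' x y := by
    show χf χ ((x : X).2 + (y : X).2) = _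
    simp only [map_add]
  continuous_toFun := continuous_of_discreteTopology

theorem dual12 : DuallyEmbedded X1 X2 X12 := by
  intro χ
  have hdec : ∀ x : X1, χ x = χ (mk1 (x : X).1 0 x.2) + χf χ (x : X).2 := by
    rintro ⟨⟨a, f⟩, hx⟩
    show _ = _ + χ (mk1 0 f (by decide))
    rw [← map_add]
    congr 1
    apply Subtype.ext
    show mk a f = mk a 0 + mk 0 f
    rw [mk_add, add_zero, zero_add]
  have h2 : ∀ a : ZMod 4, a + a = 0 → a = 0 ∨ a = 2 := by decide
  by_cases hd : χ d1 = 0
  · refine ⟨ext0 χ, ?_⟩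
    intro x
    rw [hdec x]
    show χf χ ((x : X).2) = _
    have : χ (mk1 (x : X).1 0 x.2) = 0 := by
      rcases h2 _ ((mem_X1 _).1 x.2) with h | h
      · have : mk1 (x : X).1 0 x.2 = 0 := by
          apply Subtype.ext
          show mk (x : X).1 0 = 0
          rw [h, mk_zero]
        rw [this, map_zero]
      · have : mk1 (x : X).1 0 x.2 = d1 := by
          apply Subtype.ext
          show mk (x : X).1 0 = mk 2 0
          rw [h]
        rw [this, hd]
    rw [this, zero_add]
  · have hd' : χ d1 = half := by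
      apply eq_half _ hd
      rw [← map_nsmul]
      have : (2 : ℕ) • d1 = 0 := by
        rw [two_nsmul]
        apply Subtype.ext
        show mk 2 0 + mk 2 0 = 0
        rw [mk_add, add_zero]
        show mk (2 + 2) 0 = mk 0 0
        congr 1
      rw [this, map_zero]
    refine ⟨ext1 χ, ?_⟩
    intro x
    rw [hdec x]
    show ZMod.toAddCircle ((x : X).1) + χf χ ((x : X).2) = _
    congr 1
    rcases h2 _ ((mem_X1 _).1 x.2) with h | h
    · have : mk1 (x : X).1 0 x.2 = 0 := by
        apply Subtype.ext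
        show mk (x : X).1 0 = 0
        rw [h, mk_zero]
      rw [this, map_zero, h, map_zero]
    · have : mk1 (x : X).1 0 x.2 = d1 := by
        apply Subtype.ext
        show mk (x : X).1 0 = mk 2 0
        rw [h]
      rw [this, hd', h, toAddCircle_two]

/-- There are a countable discrete abelian group `X` and subgroups `X₀ ≤ X₁ ≤ X₂` of `X` such
that `X₁` is dually embedded in `X₂`, `X₀` is `T`-characterized in `X₁` and `X₁` is
`T`-characterized in `X₂`, but `X₀` is not `T`-characterized in `X₂`. -/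
theorem result : ∃ (X : Type) (_ : TopologicalSpace X) (_ : AddCommGroup X)
    (X₀ X₁ X₂ : AddSubgroup X) (_ : X₀ ≤ X₁) (h₁₂ : X₁ ≤ X₂),
    IsTopologicalAddGroup X ∧ DiscreteTopology X ∧ Countable X ∧
    DuallyEmbedded X₁ X₂ h₁₂ ∧
    TCharacterized (X₀.addSubgroupOf X₁) ∧ TCharacterized (X₁.addSubgroupOf X₂) ∧
    ¬ TCharacterized (X₀.addSubgroupOf X₂) := by
  refine ⟨X, inferInstance, inferInstance, X0, X1, X2, X01, X12, ?_, inferInstance, ?_,
    dual12, t01, t12, not_t⟩
  · infer_instance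
  · exact inferInstanceAs (Countable (ZMod 4 × (ℕ →₀ ZMod 2)))

end Pool.Agent.Results.MP_24a371_gt.NotTransitive
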